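import Pool.Agent.MP_b5696c_al.Pair

set_option autoImplicit false

/-!
# MP_b5696c_al: an explicit two-sided exact pair in a simple group of order 25920
-/

namespace Pool.Agent.MPb5696c

theorem card_NH : Nat.card N = 27 ∧ Nat.card H = 60 ∧ Nat.card G = 25920 := by
  have h4 : Nat.card (N × Fin 4 × H × Fin 4) = Nat.card N * (4 * (Nat.card H * 4)) := by
    rw [Nat.card_prod, Nat.card_prod, Nat.card_prod]
    simp
  have h5 : Nat.card (N × Fin 4 × H × Fin 4) = Nat.card G :=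
    Nat.card_congr (Equiv.ofBijective _ (psi_bij 1))
  have h1 := card_G_le
  have h2 := N_card
  have h3 := H_card
  rw [h4] at h5
  have h6 : Nat.card N * Nat.card H ≤ 27 * 60 := by
    have : 16 * (Nat.card N * Nat.card H) ≤ 16 * (27 * 60) := by
      calc 16 * (Nat.card N * Nat.card H) = Nat.card N * (4 * (Nat.card H * 4)) := by ring
        _ ≤ 25920 := by rw [h5]; exact h1
        _ = 16 * (27 * 60) := by norm_num
    omega
  have h7 : Nat.card N = 27 := by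
    by_contra h
    have h8 : 28 ≤ Nat.card N := by omega
    have := Nat.mul_le_mul h8 h3
    omega
  have h8 : Nat.card H = 60 := by
    rw [h7] at h6
    omega
  refine ⟨h7, h8, ?_⟩
  rw [← h5, h7, h8]

/-- the parametrisation of `A` -/
def pA (p : N × Fin 4) : G := ⟨(p.1 : P) * X p.2, G.mul_mem (N_le p.1.2) (X_mem _)⟩

/-- the parametrisation of `B` -/
def pB (p : H × Fin 4) : G := ⟨(p.1 : P) * U p.2, G.mul_mem (H_le p.1.2) (U_mem _)⟩

theorem pA_inj : Function.Injective pA := by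
  rintro ⟨n, i⟩ ⟨n', i'⟩ h
  have h1 : (n : P) * X i = (n' : P) * X i' := congrArg Subtype.val h
  have h2 : ((n : P)⁻¹ * (n' : P)) * (X i' * (X i)⁻¹) = 1 := by
    have : ((n : P)⁻¹ * (n' : P)) * (X i' * (X i)⁻¹) = (n : P)⁻¹ * ((n' : P) * X i') * (X i)⁻¹ := by
      group
    rw [this, ← h1]
    group
  rcases quotA _ (N.mul_mem (N.inv_mem n.2) n'.2) i' i with ⟨a1, a2⟩ | hA
  · rw [inv_mul_eq_one] at a1
    exact Prod.ext (Subtype.ext a1) a2.symm
  · rw [h2] at hA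
    exact absurd hA not_Phi_one

theorem pB_inj : Function.Injective pB := by
  rintro ⟨n, i⟩ ⟨n', i'⟩ h
  have h1 : (n : P) * U i = (n' : P) * U i' := congrArg Subtype.val h
  have h2 : ((n : P)⁻¹ * (n' : P)) * (U i' * (U i)⁻¹) = 1 := by
    have : ((n : P)⁻¹ * (n' : P)) * (U i' * (U i)⁻¹) = (n : P)⁻¹ * ((n' : P) * U i') * (U i)⁻¹ := by
      group
    rw [this, ← h1]
    group
  rcases quotB _ (H.mul_mem (H.inv_mem n.2) n'.2) i' i with ⟨a1, a2⟩ | hA
  · rw [inv_mul_eq_one] at a1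
    exact Prod.ext (Subtype.ext a1) a2.symm
  · exact absurd h2 hA.2

theorem setA_range : setA = Set.range pA := by
  ext a
  constructor
  · rintro ⟨n, hn, i, h⟩
    exact ⟨(⟨n, hn⟩, i), Subtype.ext h.symm⟩
  · rintro ⟨⟨n, i⟩, rfl⟩
    exact ⟨n, n.2, i, rfl⟩

theorem setB_range : setB = Set.range pB := by
  ext a
  constructor
  · rintro ⟨n, hn, i, h⟩
    exact ⟨(⟨n, hn⟩, i), Subtype.ext h.symm⟩
  · rintro ⟨⟨n, i⟩, rfl⟩
    exact ⟨n, n.2, i, rfl⟩

theorem ncard_A : setA.ncard = 108 := by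
  rw [setA_range, ← Nat.card_coe_set_eq, ← Nat.card_congr (Equiv.ofInjective _ pA_inj),
    Nat.card_prod, card_NH.1]
  simp

theorem ncard_B : setB.ncard = 240 := by
  rw [setB_range, ← Nat.card_coe_set_eq, ← Nat.card_congr (Equiv.ofInjective _ pB_inj),
    Nat.card_prod, card_NH.2.1]
  simp

/-- a right coset is a left coset of a conjugate -/
theorem right_coset {Γ : Type*} [Group Γ] (K : Subgroup Γ) (y : Γ) :
    {z : Γ | ∃ k ∈ K, z = k * y} = (fun z => y * z) ''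
      ((K.map (MulAut.conj y⁻¹).toMonoidHom : Subgroup Γ) : Set Γ) := by
  ext z
  constructor
  · rintro ⟨k, hk, rfl⟩
    refine ⟨y⁻¹ * k * y, ⟨k, hk, by simp [MulAut.conj_apply]⟩, ?_⟩
    show y * (y⁻¹ * k * y) = k * y
    group
  · rintro ⟨w, ⟨k, hk, rfl⟩, rfl⟩
    refine ⟨k, hk, ?_⟩
    simp [MulAut.conj_apply, mul_assoc]

theorem left_coset {Γ : Type*} [Group Γ] (K : Subgroup Γ) (y : Γ) :
    {z : Γ | ∃ k ∈ K, z = y * k} = (fun z => y * z) '' (K : Set Γ) := by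
  ext z
  constructor
  · rintro ⟨k, hk, rfl⟩
    exact ⟨k, hk, rfl⟩
  · rintro ⟨k, hk, rfl⟩
    exact ⟨k, hk, rfl⟩

end Pool.Agent.MPb5696c

namespace Pool.Agent.Results.MP_b5696c_al.SimpleOrder25920

open Pool.Agent.MPb5696c

/-- There is a simple group `S` of permutations of 40 letters, of order 25920, with subgroups `N` of
order 27 and `H` of order 60 and elements `x i`, `u i` (`i < 4`) such that `A = ⋃ N x_i` (108 elements)
and `B = ⋃ H u_i` (240 elements) form a two-sided exact pair: for all `g, h ∈ S` exactly one element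
of `B` is of the form `g⁻¹ a h`, `a ∈ A`; and neither `A` nor `B` is a left or a right coset of a
subgroup. -/
theorem result :
    ∃ S : Subgroup (Equiv.Perm (Fin 40)), IsSimpleGroup S ∧ Nat.card S = 25920 ∧
      ∃ (N H : Subgroup S) (x u : Fin 4 → S), Nat.card N = 27 ∧ Nat.card H = 60 ∧
      ∃ A B : Set S, A = {a | ∃ n ∈ N, ∃ i, a = n * x i} ∧ B = {b | ∃ n ∈ H, ∃ i, b = n * u i} ∧
        A.ncard = 108 ∧ B.ncard = 240 ∧
        (∀ g h : S, ∃! b, b ∈ B ∧ ∃ a ∈ A, g⁻¹ * a * h = b) ∧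
        ∀ (K : Subgroup S) (y : S),
          A ≠ {z | ∃ k ∈ K, z = y * k} ∧ A ≠ {z | ∃ k ∈ K, z = k * y} ∧
          B ≠ {z | ∃ k ∈ K, z = y * k} ∧ B ≠ {z | ∃ k ∈ K, z = k * y} := by
  refine ⟨G, G_simple, card_NH.2.2, N.subgroupOf G, H.subgroupOf G,
    fun i => ⟨X i, X_mem i⟩, fun i => ⟨U i, U_mem i⟩, ?_, ?_, setA, setB, ?_, ?_, ncard_A, ncard_B,
    ?_, ?_⟩
  · rw [← card_NH.1]
    exact Nat.card_congr (Subgroup.subgroupOfEquivOfLe N_le).toEquiv
  · rw [← card_NH.2.1]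
    exact Nat.card_congr (Subgroup.subgroupOfEquivOfLe H_le).toEquiv
  · ext a
    constructor
    · rintro ⟨n, hn, i, h⟩
      exact ⟨⟨n, N_le hn⟩, hn, i, Subtype.ext h⟩
    · rintro ⟨n, hn, i, h⟩
      exact ⟨n, hn, i, congrArg Subtype.val h⟩
  · ext a
    constructor
    · rintro ⟨n, hn, i, h⟩
      exact ⟨⟨n, H_le hn⟩, hn, i, Subtype.ext h⟩
    · rintro ⟨n, hn, i, h⟩
      exact ⟨n, hn, i, congrArg Subtype.val h⟩
  · intro g h
    obtain ⟨b, hb⟩ := Set.ncard_eq_one.1 (exact_pair g h)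
    have hb1 : b ∈ (fun a => g⁻¹ * a * h) '' setA ∩ setB := by
      rw [hb]
      exact Set.mem_singleton b
    obtain ⟨⟨a, ha, hab⟩, hbB⟩ := hb1
    refine ⟨b, ⟨hbB, a, ha, hab⟩, ?_⟩
    rintro c ⟨hc, a', ha', hac⟩
    have hc1 : c ∈ (fun a => g⁻¹ * a * h) '' setA ∩ setB := ⟨⟨a', ha', hac⟩, hc⟩
    rw [hb] at hc1
    exact hc1
  · intro K y
    refine ⟨?_, ?_, ?_, ?_⟩
    · intro h
      exact not_coset_A ⟨K, y, by rw [h, left_coset]⟩
    · intro h
      exact not_coset_A ⟨_, y, by rw [h, right_coset]⟩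
    · intro h
      exact not_coset_B ⟨K, y, by rw [h, left_coset]⟩
    · intro h
      exact not_coset_B ⟨_, y, by rw [h, right_coset]⟩

end Pool.Agent.Results.MP_b5696c_al.SimpleOrder25920
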